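import Pool.Agent.Helper89.HF.Main

/-!
`H`-Free Contraction is W[2]-hard for every connected graph `H` with at least six vertices that
is not complete.
-/

namespace Pool.Agent.Results.MP_5603dc_lc.Full

open Pool.Agent.H22.CT SimpleGraph

theorem con_iso {V W : Type} {H : SimpleGraph V} {H' : SimpleGraph W} (e : H ≃g H') :
    Con₁ H = Con₁ H' := by
  have hf : ∀ {U : Type} (G : SimpleGraph U), Pool.Agent.H22.CT.Free H G ↔ Pool.Agent.H22.CT.Free H' G := fun G =>
    ⟨fun h => ⟨fun f => h.false (f.comp e.toEmbedding)⟩,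
      fun h => ⟨fun f => h.false (f.comp e.symm.toEmbedding)⟩⟩
  funext x
  exact propext ⟨fun ⟨F, h1, h2, h3⟩ => ⟨F, h1, h2, (hf _).1 h3⟩,
    fun ⟨F, h1, h2, h3⟩ => ⟨F, h1, h2, (hf _).2 h3⟩⟩

/-- For every finite connected graph `H` that has at least six vertices and is not complete,
`H`-Free Contraction is W[2]-hard. -/
theorem result {V : Type} [Fintype V] (H : SimpleGraph V) (h6 : 6 ≤ Fintype.card V)
    (hc : H.Connected) (hn : H ≠ ⊤) : W2Hard (Con₁ H) := by
  have e : H ≃g H.overFin rfl := H.overFinIso rfl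
  rw [con_iso e]
  refine Pool.Agent.Helper89.HF.main h6 _ (e.connected_iff.1 hc) fun h => hn ?_
  refine top_le_iff.1 fun a b hab => e.map_adj_iff.1 ?_
  have h1 : ∀ G : SimpleGraph (Fin (Fintype.card V)), G = ⊤ → ∀ c d, c ≠ d → G.Adj c d :=
    fun G hG c d hcd => by rw [hG]; exact hcd
  exact h1 _ h _ _ fun h2 => hab (e.injective h2)

end Pool.Agent.Results.MP_5603dc_lc.Full
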